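import Pool.Agent.Helper37.SU.Stmts

set_option autoImplicit false

namespace Pool.Agent.Helper37.SU

open MeasureTheory Finset
open scoped ENNReal Classical

namespace NQ52

/-- sample point -/
noncomputable def qp (b m j : ℕ) (u : UnitAddCircle) : UnitAddCircle :=
  if j ≤ m then pt b j (ix b j u) else u

/-- the pieces of `G` -/
noncomputable def EE (b m σ : ℕ) (G : UnitAddCircle → ℂ) : ℕ → UnitAddCircle → ℂ
  | 0, u => G (qp b m σ u)
  | k + 1, u => G (qp b m (σ + k + 1) u) - G (qp b m (σ + k) u)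

/-- the pieces as functions of the index -/
noncomputable def ee (b σ : ℕ) (G : UnitAddCircle → ℂ) : ℕ → ℕ → ℂ
  | 0, a => G (pt b σ a)
  | k + 1, a => G (pt b (σ + k + 1) a) - G (pt b (σ + k) (a / b))

theorem sum_EE (b m σ : ℕ) (G : UnitAddCircle → ℂ) (u : UnitAddCircle) :
    ∑ k ∈ range (m + 2), EE b m σ G k u = G u := by
  have h : ∀ N, ∑ k ∈ range (N + 1), EE b m σ G k u = G (qp b m (σ + N) u) := by
    intro N
    induction N with
    | zero => simp [EE]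
    | succ N ih =>
      rw [Finset.sum_range_succ, ih]
      show G (qp b m (σ + N) u) + (G (qp b m (σ + N + 1) u) - G (qp b m (σ + N) u))
        = G (qp b m (σ + (N + 1)) u)
      rw [← add_assoc]
      ring
  rw [h (m + 1)]
  unfold qp
  rw [if_neg (by omega)]

theorem EE_eq (b m σ : ℕ) (G : UnitAddCircle → ℂ)
    (hix : ∀ (i j : ℕ) (t : UnitAddCircle), ix b i t = ix b (i + j) t / b ^ j)
    (k : ℕ) (h : σ + k ≤ m) (u : UnitAddCircle) :
    EE b m σ G k u = ee b σ G k (ix b (σ + k) u) := by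
  cases k with
  | zero =>
    show G (qp b m σ u) = G (pt b σ (ix b (σ + 0) u))
    unfold qp
    rw [if_pos (by omega)]
    rfl
  | succ k =>
    show G (qp b m (σ + k + 1) u) - G (qp b m (σ + k) u)
      = G (pt b (σ + k + 1) (ix b (σ + (k + 1)) u)) - G (pt b (σ + k) (ix b (σ + (k + 1)) u / b))
    unfold qp
    rw [if_pos (by omega), if_pos (by omega)]
    have h1 := hix (σ + k) 1 u
    rw [pow_one] at h1
    rw [← add_assoc, ← h1]

theorem exact_sum {b d m : ℕ} (x : Fin (b ^ m) → TT d) (hnet : IsNet b d m x)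
    (hix : ∀ (j : ℕ) (t : UnitAddCircle), ix b j t < b ^ j)
    (τ : Fin d → ℕ) (hτ : ∑ i, τ i ≤ m) (e : Fin d → ℕ → ℂ) :
    ∑ p, ∏ i, e i (ix b (τ i) (x p i)) =
      (b : ℂ) ^ (m - ∑ i, τ i) * ∏ i, ∑ a ∈ range (b ^ τ i), e i a := by
  have h1 : ∏ i, ∑ a ∈ range (b ^ τ i), e i a = ∑ a ∈ gr b τ, ∏ i, e i (a i) := by
    unfold gr
    rw [Finset.prod_univ_sum]
  have h2 : ∑ a ∈ gr b τ, ∑ p ∈ univ.filter (fun p => (fun i => ix b (τ i) (x p i)) = a),
      ∏ i, e i (ix b (τ i) (x p i)) = ∑ p, ∏ i, e i (ix b (τ i) (x p i)) := by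
    refine Finset.sum_fiberwise_of_maps_to (fun p _ => ?_) _
    exact mem_gr.2 fun i => hix _ _
  rw [h1, ← h2, Finset.mul_sum]
  refine Finset.sum_congr rfl fun a ha => ?_
  have h3 : ∑ p ∈ univ.filter (fun p => (fun i => ix b (τ i) (x p i)) = a),
      ∏ i, e i (ix b (τ i) (x p i))
      = ∑ p ∈ univ.filter (fun p => (fun i => ix b (τ i) (x p i)) = a), ∏ i, e i (a i) := by
    refine Finset.sum_congr rfl fun p hp => ?_
    have h4 := (Finset.mem_filter.1 hp).2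
    refine Finset.prod_congr rfl fun i _ => ?_
    have h5 : ix b (τ i) (x p i) = a i := congrFun h4 i
    rw [h5]
  rw [h3, Finset.sum_const, nsmul_eq_mul]
  have h6 : (univ.filter (fun p => (fun i => ix b (τ i) (x p i)) = a)).card
      = b ^ (m - ∑ i, τ i) := by
    rw [← hnet (τ, a) hτ (mem_gr.1 ha)]
    congr 1
    ext p
    simp only [Finset.mem_filter, Finset.mem_univ, true_and]
    exact ⟨fun h i => congrFun h i, fun h => funext h⟩
  rw [h6]
  push_cast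
  ring

theorem int_step {b : ℕ} (hb : 2 ≤ b)
    (hix : ∀ (j : ℕ) (t : UnitAddCircle), ix b j t < b ^ j)
    (hme : ∀ j : ℕ, Measurable (ix b j))
    (hha : ∀ j a : ℕ, a < b ^ j → haar1 {t | ix b j t = a} = ENNReal.ofReal ((b : ℝ) ^ j)⁻¹)
    (τ : ℕ) (e : ℕ → ℂ) :
    ∫ u, e (ix b τ u) ∂haar1 = ((b : ℂ) ^ τ)⁻¹ * ∑ a ∈ range (b ^ τ), e a := by
  have h1 : (fun u => e (ix b τ u))
      = fun u => ∑ a ∈ range (b ^ τ), Set.indicator {t | ix b τ t = a} (fun _ => e a) u := by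
    funext u
    rw [Finset.sum_eq_single (ix b τ u)]
    · rw [Set.indicator_of_mem]
      rfl
    · intro a _ ha
      rw [Set.indicator_of_notMem]
      intro h
      exact ha (Eq.symm h)
    · intro h
      exact absurd (Finset.mem_range.2 (hix τ u)) h
  have hms : ∀ a, MeasurableSet {t | ix b τ t = a} := fun a =>
    hme τ (measurableSet_singleton a)
  have : IsProbabilityMeasure haar1 := by
    unfold haar1
    infer_instance
  rw [h1, integral_finsetSum]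
  · rw [Finset.mul_sum]
    refine Finset.sum_congr rfl fun a ha => ?_
    rw [integral_indicator_const _ (hms a), Measure.real, hha τ a (Finset.mem_range.1 ha),
      ENNReal.toReal_ofReal (by positivity), Complex.real_smul]
    push_cast
    ring
  · intro a _
    exact (integrable_const (e a)).indicator (hms a)

theorem ev_comp {b : ℕ} (j : ℕ) (u v c : UnitAddCircle) (hb : 2 ≤ b)
    (h : ‖v - u‖ ≤ ((b : ℝ) ^ j)⁻¹) : ev b j (v - c) ≤ 4 * ev b j (u - c) := by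
  have hbj : 0 < (b : ℝ) ^ j := by positivity
  have h1 : ‖u - c‖ ≤ ‖v - c‖ + ((b : ℝ) ^ j)⁻¹ := by
    have : u - c = (v - c) - (v - u) := by abel
    rw [this]
    exact (norm_sub_le _ _).trans (by linarith)
  have h2 : 1 + (b : ℝ) ^ j * ‖u - c‖ ≤ 2 * (1 + (b : ℝ) ^ j * ‖v - c‖) := by
    have h3 : (b : ℝ) ^ j * ‖u - c‖ ≤ (b : ℝ) ^ j * ‖v - c‖ + 1 := by
      calc (b : ℝ) ^ j * ‖u - c‖ ≤ (b : ℝ) ^ j * (‖v - c‖ + ((b : ℝ) ^ j)⁻¹) :=
            mul_le_mul_of_nonneg_left h1 hbj.le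
        _ = (b : ℝ) ^ j * ‖v - c‖ + 1 := by
            rw [mul_add, mul_inv_cancel₀ hbj.ne']
    have h4 : 0 ≤ (b : ℝ) ^ j * ‖v - c‖ := by positivity
    linarith
  unfold ev
  have hU : 0 < 1 + (b : ℝ) ^ j * ‖u - c‖ := by positivity
  have hV : 0 < 1 + (b : ℝ) ^ j * ‖v - c‖ := by positivity
  have h5 : (1 + (b : ℝ) ^ j * ‖u - c‖) ^ 2 ≤ 4 * (1 + (b : ℝ) ^ j * ‖v - c‖) ^ 2 := by
    nlinarith
  rw [← div_eq_mul_inv, inv_eq_one_div, div_le_div_iff₀ (by positivity) (by positivity)]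
  linarith

theorem ev_nonneg (b j : ℕ) (t : UnitAddCircle) : 0 ≤ ev b j t := by
  unfold ev
  positivity

theorem qp_dist {b : ℕ} (m j : ℕ) (u : UnitAddCircle)
    (hpt : ∀ (j : ℕ) (t : UnitAddCircle), ‖t - pt b j (ix b j t)‖ ≤ ((b : ℝ) ^ j)⁻¹) :
    ‖qp b m j u - u‖ ≤ ((b : ℝ) ^ j)⁻¹ := by
  unfold qp
  split_ifs with h
  · rw [norm_sub_rev]
    exact hpt j u
  · rw [sub_self, norm_zero]
    positivity

theorem EE_bound {b : ℕ} (hb : 2 ≤ b) (m σ : ℕ) (G : UnitAddCircle → ℂ) (c : UnitAddCircle)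
    (hpt : ∀ (j : ℕ) (t : UnitAddCircle), ‖t - pt b j (ix b j t)‖ ≤ ((b : ℝ) ^ j)⁻¹)
    (h1 : ∀ t, ‖G t‖ ≤ ev b σ (t - c))
    (h2 : ∀ t t', ‖G t - G t'‖ ≤ (b : ℝ) ^ σ * ‖t - t'‖ * (ev b σ (t - c) + ev b σ (t' - c)))
    (k : ℕ) (u : UnitAddCircle) :
    ‖EE b m σ G k u‖ ≤ 16 * b * ((b : ℝ) ^ k)⁻¹ * ev b σ (u - c) := by
  have hb' : (2 : ℝ) ≤ b := by exact_mod_cast hb
  have he := ev_nonneg b σ (u - c)
  have hq : ∀ j, σ ≤ j → ev b σ (qp b m j u - c) ≤ 4 * ev b σ (u - c) := by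
    intro j hj
    refine ev_comp σ u _ c hb ((qp_dist m j u hpt).trans ?_)
    exact inv_anti₀ (by positivity) (pow_le_pow_right₀ (by linarith) hj)
  cases k with
  | zero =>
    show ‖G (qp b m σ u)‖ ≤ _
    refine (h1 _).trans ((hq σ le_rfl).trans ?_)
    rw [pow_zero, inv_one, mul_one]
    nlinarith
  | succ k =>
    show ‖G (qp b m (σ + k + 1) u) - G (qp b m (σ + k) u)‖ ≤ _
    have hA := hq (σ + k + 1) (by omega)
    have hB := hq (σ + k) (by omega)
    have hd : ‖qp b m (σ + k + 1) u - qp b m (σ + k) u‖ ≤ 2 * ((b : ℝ) ^ (σ + k))⁻¹ := by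
      have e1 : qp b m (σ + k + 1) u - qp b m (σ + k) u
          = (qp b m (σ + k + 1) u - u) - (qp b m (σ + k) u - u) := by abel
      rw [e1]
      refine (norm_sub_le _ _).trans ?_
      have e2 := qp_dist m (σ + k + 1) u hpt
      have e3 := qp_dist m (σ + k) u hpt
      have e4 : ((b : ℝ) ^ (σ + k + 1))⁻¹ ≤ ((b : ℝ) ^ (σ + k))⁻¹ :=
        inv_anti₀ (by positivity) (pow_le_pow_right₀ (by linarith) (by omega))
      linarith
    refine (h2 _ _).trans ?_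
    calc (b : ℝ) ^ σ * ‖qp b m (σ + k + 1) u - qp b m (σ + k) u‖ *
          (ev b σ (qp b m (σ + k + 1) u - c) + ev b σ (qp b m (σ + k) u - c))
        ≤ (b : ℝ) ^ σ * (2 * ((b : ℝ) ^ (σ + k))⁻¹) * (8 * ev b σ (u - c)) := by
          refine mul_le_mul ?_ (by linarith) ?_ (by positivity)
          · exact mul_le_mul_of_nonneg_left hd (by positivity)
          · exact add_nonneg (ev_nonneg _ _ _) (ev_nonneg _ _ _)
      _ = 16 * b * ((b : ℝ) ^ (k + 1))⁻¹ * ev b σ (u - c) := by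
          rw [pow_add, pow_succ]
          field_simp
          ring

theorem ev_cont (b j : ℕ) (c : UnitAddCircle) :
    Continuous (fun t : UnitAddCircle => ev b j (t - c)) := by
  unfold ev
  refine Continuous.inv₀ (by fun_prop) fun t => ?_
  have : 0 < 1 + (b : ℝ) ^ j * ‖t - c‖ := by positivity
  positivity

theorem sum_rho (ρ : ℝ) (h0 : 0 < ρ) (h1 : ρ < 1) (M N : ℕ) :
    ∑ k ∈ range N, ρ ^ (k - M) ≤ (1 + (1 - ρ)⁻¹) * (1 + M) := by
  have hpos : 0 < (1 - ρ)⁻¹ := inv_pos.2 (by linarith)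
  have h2 : ∑ k ∈ range N, ρ ^ (k - M) ≤ ∑ k ∈ range (M + N), ρ ^ (k - M) :=
    Finset.sum_le_sum_of_subset_of_nonneg (Finset.range_mono (by omega))
      fun _ _ _ => by positivity
  refine h2.trans ?_
  rw [Finset.sum_range_add]
  have h3 : ∑ k ∈ range M, ρ ^ (k - M) = M := by
    rw [Finset.sum_congr rfl (g := fun _ => (1 : ℝ))]
    · simp
    · intro k hk
      rw [Nat.sub_eq_zero_of_le (le_of_lt (Finset.mem_range.1 hk)), pow_zero]
  have h4 : ∑ k ∈ range N, ρ ^ (M + k - M) ≤ (1 - ρ)⁻¹ := by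
    have h5 : ∑ k ∈ range N, ρ ^ (M + k - M) = ∑ k ∈ range N, ρ ^ k :=
      Finset.sum_congr rfl fun k _ => by rw [Nat.add_sub_cancel_left]
    rw [h5]
    have h6 := (summable_geometric_of_lt_one h0.le h1).sum_le_tsum (range N)
      (fun i _ => by positivity)
    rw [tsum_geometric_of_lt_one h0.le h1] at h6
    exact h6
  rw [h3]
  have h7 : (0 : ℝ) ≤ M := Nat.cast_nonneg _
  nlinarith

theorem tail {b d : ℕ} (hb : 2 ≤ b) : ∃ C : ℝ, 0 < C ∧ ∀ M N : ℕ,
    ∑ κ ∈ (Fintype.piFinset fun _ : Fin d => range N).filter (fun κ => M < ∑ i, κ i),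
      ((b : ℝ) ^ (∑ i, κ i))⁻¹ * (b : ℝ) ^ M ≤ C * (1 + (M : ℝ)) ^ d := by
  rcases Nat.eq_zero_or_pos d with hd | hd
  · subst hd
    refine ⟨1, one_pos, fun M N => ?_⟩
    rw [Finset.filter_false_of_mem]
    · simp
    · intro κ _
      simp
  · have hb' : (2 : ℝ) ≤ b := by exact_mod_cast hb
    set ρ : ℝ := ((b : ℝ)⁻¹) ^ ((d : ℝ)⁻¹) with hρ
    have hbi0 : 0 < (b : ℝ)⁻¹ := by positivity
    have hbi1 : (b : ℝ)⁻¹ < 1 := inv_lt_one_of_one_lt₀ (by linarith)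
    have h0 : 0 < ρ := Real.rpow_pos_of_pos hbi0 _
    have h1 : ρ < 1 := Real.rpow_lt_one hbi0.le hbi1 (by positivity)
    have hpow : ρ ^ d = (b : ℝ)⁻¹ := Real.rpow_inv_natCast_pow hbi0.le (by omega)
    have hpos : 0 < (1 - ρ)⁻¹ := inv_pos.2 (by linarith)
    refine ⟨(1 + (1 - ρ)⁻¹) ^ d, by positivity, fun M N => ?_⟩
    calc ∑ κ ∈ (Fintype.piFinset fun _ : Fin d => range N).filter (fun κ => M < ∑ i, κ i),
          ((b : ℝ) ^ (∑ i, κ i))⁻¹ * (b : ℝ) ^ M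
        ≤ ∑ κ ∈ (Fintype.piFinset fun _ : Fin d => range N).filter (fun κ => M < ∑ i, κ i),
          ∏ i, ρ ^ (κ i - M) := by
          refine Finset.sum_le_sum fun κ hκ => ?_
          have hM : M < ∑ i, κ i := (Finset.mem_filter.1 hκ).2
          have e1 : ((b : ℝ) ^ (∑ i, κ i))⁻¹ * (b : ℝ) ^ M = ρ ^ (d * (∑ i, κ i - M)) := by
            rw [pow_mul, hpow]
            obtain ⟨r, hr⟩ : ∃ r, ∑ i, κ i = M + r := ⟨∑ i, κ i - M, by omega⟩
            rw [hr, Nat.add_sub_cancel_left, pow_add, mul_inv, inv_pow]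
            field_simp
          rw [e1, Finset.prod_pow_eq_pow_sum]
          refine pow_le_pow_of_le_one h0.le h1.le ?_
          calc ∑ i, (κ i - M) ≤ ∑ _i : Fin d, (∑ i, κ i - M) := by
                refine Finset.sum_le_sum fun i _ => ?_
                have : κ i ≤ ∑ i, κ i :=
                  Finset.single_le_sum (fun _ _ => Nat.zero_le _) (Finset.mem_univ i)
                omega
            _ = d * (∑ i, κ i - M) := by simp
      _ ≤ ∑ κ ∈ Fintype.piFinset fun _ : Fin d => range N, ∏ i, ρ ^ (κ i - M) :=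
          Finset.sum_le_sum_of_subset_of_nonneg (Finset.filter_subset _ _)
            fun _ _ _ => Finset.prod_nonneg fun _ _ => by positivity
      _ = ∏ _i : Fin d, ∑ k ∈ range N, ρ ^ (k - M) :=
          (Finset.prod_univ_sum (fun _ : Fin d => range N) fun _ k => ρ ^ (k - M)).symm
      _ ≤ ∏ _i : Fin d, (1 + (1 - ρ)⁻¹) * (1 + (M : ℝ)) := by
          refine Finset.prod_le_prod (fun _ _ => Finset.sum_nonneg fun _ _ => by positivity)
            fun _ _ => sum_rho ρ h0 h1 M N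
      _ = (1 + (1 - ρ)⁻¹) ^ d * (1 + (M : ℝ)) ^ d := by
          rw [Finset.prod_const, Finset.card_univ, Fintype.card_fin, mul_pow]

theorem ev_le_one (b j : ℕ) (t : UnitAddCircle) : ev b j t ≤ 1 := by
  unfold ev
  refine inv_le_one_of_one_le₀ ?_
  have : 0 ≤ (b : ℝ) ^ j * ‖t‖ := by positivity
  nlinarith

theorem G_cont {b σ : ℕ} (G : UnitAddCircle → ℂ) (c : UnitAddCircle)
    (h2 : ∀ t t', ‖G t - G t'‖ ≤ (b : ℝ) ^ σ * ‖t - t'‖ * (ev b σ (t - c) + ev b σ (t' - c))) :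
    Continuous G := by
  refine (LipschitzWith.of_dist_le' (K := (b : ℝ) ^ σ * 2) fun t t' => ?_).continuous
  rw [dist_eq_norm, dist_eq_norm]
  refine (h2 t t').trans ?_
  have e1 := ev_le_one b σ (t - c)
  have e2 := ev_le_one b σ (t' - c)
  have e3 : 0 ≤ (b : ℝ) ^ σ * ‖t - t'‖ := by positivity
  nlinarith

theorem Q_meas {b m σ : ℕ} (hme : ∀ j : ℕ, Measurable (ix b j)) (G : UnitAddCircle → ℂ)
    (c : UnitAddCircle)
    (h2 : ∀ t t', ‖G t - G t'‖ ≤ (b : ℝ) ^ σ * ‖t - t'‖ * (ev b σ (t - c) + ev b σ (t' - c)))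
    (j : ℕ) : Measurable (fun u => G (qp b m j u)) := by
  unfold qp
  by_cases h : j ≤ m
  · simp only [if_pos h]
    exact (measurable_of_countable (fun a : ℕ => G (pt b j a))).comp (hme j)
  · simp only [if_neg h]
    exact (G_cont G c h2).measurable

theorem E_meas {b m σ : ℕ} (hme : ∀ j : ℕ, Measurable (ix b j)) (G : UnitAddCircle → ℂ)
    (c : UnitAddCircle)
    (h2 : ∀ t t', ‖G t - G t'‖ ≤ (b : ℝ) ^ σ * ‖t - t'‖ * (ev b σ (t - c) + ev b σ (t' - c)))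
    (k : ℕ) : Measurable (EE b m σ G k) := by
  cases k with
  | zero => exact Q_meas hme G c h2 σ
  | succ k => exact (Q_meas hme G c h2 (σ + k + 1)).sub (Q_meas hme G c h2 (σ + k))

end NQ52

open NQ52

theorem st_NQ (hI : ST_IXB) (hO : ST_OVX) (hE : ST_EVI) : ST_NQ := by
  intro b d hb
  obtain ⟨i1, i2, i3, _, i5, i6, _, _⟩ := hI b hb
  obtain ⟨C1, hC1, hO⟩ := hO b d hb
  obtain ⟨C2, hC2, hE1, _⟩ := hE b d hb
  obtain ⟨C3, hC3, hT⟩ := tail (b := b) (d := d) hb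
  have hb' : (2 : ℝ) ≤ b := by exact_mod_cast hb
  have hb0 : (0 : ℝ) < b := by linarith
  refine ⟨(16 * b) ^ d * (2 * C1 + C2) * C3, by positivity, ?_⟩
  intro m x σ c G hnet hσ hG1 hG2
  have hprob : IsProbabilityMeasure haar1 := by
    unfold haar1
    infer_instance
  have hevI : ∀ i, Integrable (fun t => ev b (σ i) (t - c i)) haar1 := fun i =>
    (ev_cont b (σ i) (c i)).integrable_of_hasCompactSupport (HasCompactSupport.of_compactSpace _)
  have hEB : ∀ i k u, ‖EE b m (σ i) (G i) k u‖ ≤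
      16 * b * ((b : ℝ) ^ k)⁻¹ * ev b (σ i) (u - c i) := fun i k u =>
    EE_bound hb m (σ i) (G i) (c i) i3 (hG1 i) (hG2 i) k u
  have hEI : ∀ i k, Integrable (EE b m (σ i) (G i) k) haar1 := fun i k =>
    ((hevI i).const_mul (16 * b * ((b : ℝ) ^ k)⁻¹)).mono'
      (E_meas i5 (G i) (c i) (hG2 i) k).aestronglyMeasurable
      (Filter.Eventually.of_forall fun u => hEB i k u)
  set M : ℕ := m - ∑ i, σ i with hM
  have hmM : m = (∑ i, σ i) + M := by omega
  set K : Finset (Fin d → ℕ) := Fintype.piFinset fun _ : Fin d => range (m + 2) with hK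
  have hS : ∑ p, ∏ i, G i (x p i)
      = ∑ κ ∈ K, ∑ p, ∏ i, EE b m (σ i) (G i) (κ i) (x p i) := by
    rw [Finset.sum_comm]
    refine Finset.sum_congr rfl fun p _ => ?_
    rw [hK, ← Finset.prod_univ_sum (fun _ : Fin d => range (m + 2))
      fun i k => EE b m (σ i) (G i) k (x p i)]
    refine Finset.prod_congr rfl fun i _ => ?_
    rw [sum_EE]
  have hJ : (b : ℂ) ^ m * ∏ i, ∫ t, G i t ∂haar1
      = ∑ κ ∈ K, (b : ℂ) ^ m * ∏ i, ∫ t, EE b m (σ i) (G i) (κ i) t ∂haar1 := by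
    rw [← Finset.mul_sum, hK, ← Finset.prod_univ_sum (fun _ : Fin d => range (m + 2))
      fun i k => ∫ t, EE b m (σ i) (G i) k t ∂haar1]
    congr 1
    refine Finset.prod_congr rfl fun i _ => ?_
    rw [← integral_finsetSum _ fun k _ => hEI i k]
    refine integral_congr_ae (Filter.Eventually.of_forall fun t => ?_)
    exact (sum_EE b m (σ i) (G i) t).symm
  have hzero : ∀ κ : Fin d → ℕ, ¬ M < ∑ i, κ i →
      (∑ p, ∏ i, EE b m (σ i) (G i) (κ i) (x p i))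
        - (b : ℂ) ^ m * ∏ i, ∫ t, EE b m (σ i) (G i) (κ i) t ∂haar1 = 0 := by
    intro κ hκ
    have hsum : ∑ i, (σ i + κ i) ≤ m := by
      rw [Finset.sum_add_distrib]
      omega
    have hle : ∀ i, σ i + κ i ≤ m := fun i =>
      (Finset.single_le_sum (f := fun i => σ i + κ i) (fun _ _ => Nat.zero_le _)
        (Finset.mem_univ i)).trans hsum
    have e1 : ∑ p, ∏ i, EE b m (σ i) (G i) (κ i) (x p i)
        = ∑ p, ∏ i, ee b (σ i) (G i) (κ i) (ix b (σ i + κ i) (x p i)) := by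
      refine Finset.sum_congr rfl fun p _ => Finset.prod_congr rfl fun i _ => ?_
      exact EE_eq b m (σ i) (G i) i2 (κ i) (hle i) _
    have e2 : ∏ i, ∫ t, EE b m (σ i) (G i) (κ i) t ∂haar1
        = ∏ i, (((b : ℂ) ^ (σ i + κ i))⁻¹
            * ∑ a ∈ range (b ^ (σ i + κ i)), ee b (σ i) (G i) (κ i) a) := by
      refine Finset.prod_congr rfl fun i _ => ?_
      rw [← int_step hb i1 i5 i6]
      refine integral_congr_ae (Filter.Eventually.of_forall fun t => ?_)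
      exact EE_eq b m (σ i) (G i) i2 (κ i) (hle i) t
    rw [e1, e2, exact_sum x hnet i1 (fun i => σ i + κ i) hsum
      (fun i a => ee b (σ i) (G i) (κ i) a), Finset.prod_mul_distrib, Finset.prod_inv_distrib,
      Finset.prod_pow_eq_pow_sum]
    have hbC : (b : ℂ) ≠ 0 := by
      exact_mod_cast (by omega : b ≠ 0)
    have e3 : (b : ℂ) ^ m = (b : ℂ) ^ (m - ∑ i, (σ i + κ i)) * (b : ℂ) ^ (∑ i, (σ i + κ i)) := by
      rw [← pow_add]
      congr 1
      omega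
    rw [e3]
    have e4 : (b : ℂ) ^ (∑ i, (σ i + κ i)) ≠ 0 := pow_ne_zero _ hbC
    field_simp
    ring
  have hprodB : ∀ κ : Fin d → ℕ, ∀ w : Fin d → ℝ,
      ∏ i, (16 * b * ((b : ℝ) ^ κ i)⁻¹ * w i)
        = (16 * b) ^ d * ((b : ℝ) ^ (∑ i, κ i))⁻¹ * ∏ i, w i := by
    intro κ w
    rw [Finset.prod_mul_distrib, Finset.prod_mul_distrib, Finset.prod_const, Finset.card_univ,
      Fintype.card_fin, Finset.prod_inv_distrib, Finset.prod_pow_eq_pow_sum]
  have hbM : (b : ℝ) ^ m / (b : ℝ) ^ (∑ i, σ i) = (b : ℝ) ^ M := by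
    rw [hmM, pow_add]
    field_simp
  have hbig : ∀ κ : Fin d → ℕ,
      ‖(∑ p, ∏ i, EE b m (σ i) (G i) (κ i) (x p i))
        - (b : ℂ) ^ m * ∏ i, ∫ t, EE b m (σ i) (G i) (κ i) t ∂haar1‖
      ≤ (16 * b) ^ d * (2 * C1 + C2) * (((b : ℝ) ^ (∑ i, κ i))⁻¹ * (b : ℝ) ^ M) := by
    intro κ
    have f1 : ‖∑ p, ∏ i, EE b m (σ i) (G i) (κ i) (x p i)‖
        ≤ (16 * b) ^ d * ((b : ℝ) ^ (∑ i, κ i))⁻¹ * (C1 * (2 * (b : ℝ) ^ M)) := by
      calc ‖∑ p, ∏ i, EE b m (σ i) (G i) (κ i) (x p i)‖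
          ≤ ∑ p, ‖∏ i, EE b m (σ i) (G i) (κ i) (x p i)‖ := norm_sum_le _ _
        _ ≤ ∑ p, ∏ i, (16 * b * ((b : ℝ) ^ κ i)⁻¹ * ev b (σ i) (x p i - c i)) := by
            refine Finset.sum_le_sum fun p _ => ?_
            rw [norm_prod]
            exact Finset.prod_le_prod (fun _ _ => norm_nonneg _) fun i _ => hEB i (κ i) _
        _ = (16 * b) ^ d * ((b : ℝ) ^ (∑ i, κ i))⁻¹
              * ∑ p, ∏ i, ev b (σ i) (x p i - c i) := by
            rw [Finset.mul_sum]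
            exact Finset.sum_congr rfl fun p _ => hprodB κ _
        _ ≤ (16 * b) ^ d * ((b : ℝ) ^ (∑ i, κ i))⁻¹ * (C1 * (2 * (b : ℝ) ^ M)) := by
            refine mul_le_mul_of_nonneg_left ?_ (by positivity)
            refine (hO m x σ c hnet).trans ?_
            refine mul_le_mul_of_nonneg_left ?_ hC1.le
            rw [hbM]
            have : (1 : ℝ) ≤ (b : ℝ) ^ M := one_le_pow₀ (by linarith)
            linarith
    have f2 : ‖(b : ℂ) ^ m * ∏ i, ∫ t, EE b m (σ i) (G i) (κ i) t ∂haar1‖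
        ≤ (16 * b) ^ d * ((b : ℝ) ^ (∑ i, κ i))⁻¹ * (C2 * (b : ℝ) ^ M) := by
      rw [norm_mul, norm_pow, Complex.norm_natCast, norm_prod]
      have g1 : ∏ i, ‖∫ t, EE b m (σ i) (G i) (κ i) t ∂haar1‖
          ≤ ∏ i, (16 * b * ((b : ℝ) ^ κ i)⁻¹ * ∫ t, ev b (σ i) (t - c i) ∂haar1) := by
        refine Finset.prod_le_prod (fun _ _ => norm_nonneg _) fun i _ => ?_
        rw [← integral_const_mul]
        exact norm_integral_le_of_norm_le ((hevI i).const_mul _)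
          (Filter.Eventually.of_forall fun u => hEB i (κ i) u)
      have g2 : ∏ i, ∫ t, ev b (σ i) (t - c i) ∂haar1 ≤ C2 * ((b : ℝ) ^ (∑ i, σ i))⁻¹ := by
        have g3 := (hE1 σ c).2
        unfold haar at g3
        rw [integral_fintype_prod_eq_prod (fun i (t : UnitAddCircle) => ev b (σ i) (t - c i))] at g3
        exact g3
      calc (b : ℝ) ^ m * ∏ i, ‖∫ t, EE b m (σ i) (G i) (κ i) t ∂haar1‖
          ≤ (b : ℝ) ^ m * ((16 * b) ^ d * ((b : ℝ) ^ (∑ i, κ i))⁻¹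
              * (C2 * ((b : ℝ) ^ (∑ i, σ i))⁻¹)) := by
            refine mul_le_mul_of_nonneg_left (g1.trans ?_) (by positivity)
            rw [hprodB]
            exact mul_le_mul_of_nonneg_left g2 (by positivity)
        _ = (16 * b) ^ d * ((b : ℝ) ^ (∑ i, κ i))⁻¹ * (C2 * (b : ℝ) ^ M) := by
            rw [← hbM]
            field_simp
    refine (norm_sub_le _ _).trans ((add_le_add f1 f2).trans (le_of_eq ?_))
    ring
  rw [hS, hJ, ← Finset.sum_sub_distrib]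
  have hfil : ∑ κ ∈ K, ((∑ p, ∏ i, EE b m (σ i) (G i) (κ i) (x p i))
        - (b : ℂ) ^ m * ∏ i, ∫ t, EE b m (σ i) (G i) (κ i) t ∂haar1)
      = ∑ κ ∈ K.filter (fun κ => M < ∑ i, κ i),
        ((∑ p, ∏ i, EE b m (σ i) (G i) (κ i) (x p i))
        - (b : ℂ) ^ m * ∏ i, ∫ t, EE b m (σ i) (G i) (κ i) t ∂haar1) := by
    rw [Finset.sum_filter]
    refine Finset.sum_congr rfl fun κ _ => ?_
    by_cases h : M < ∑ i, κ i
    · rw [if_pos h]
    · rw [if_neg h]
      exact hzero κ h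
  rw [hfil]
  calc ‖∑ κ ∈ K.filter (fun κ => M < ∑ i, κ i),
        ((∑ p, ∏ i, EE b m (σ i) (G i) (κ i) (x p i))
        - (b : ℂ) ^ m * ∏ i, ∫ t, EE b m (σ i) (G i) (κ i) t ∂haar1)‖
      ≤ ∑ κ ∈ K.filter (fun κ => M < ∑ i, κ i),
        (16 * b) ^ d * (2 * C1 + C2) * (((b : ℝ) ^ (∑ i, κ i))⁻¹ * (b : ℝ) ^ M) :=
        norm_sum_le_of_le _ fun κ _ => hbig κ
    _ = (16 * b) ^ d * (2 * C1 + C2) * ∑ κ ∈ K.filter (fun κ => M < ∑ i, κ i),
        (((b : ℝ) ^ (∑ i, κ i))⁻¹ * (b : ℝ) ^ M) := by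
        rw [Finset.mul_sum]
    _ ≤ (16 * b) ^ d * (2 * C1 + C2) * (C3 * (1 + (M : ℝ)) ^ d) :=
        mul_le_mul_of_nonneg_left (hT M (m + 2)) (by positivity)
    _ = (16 * b) ^ d * (2 * C1 + C2) * C3 * (1 + (M : ℝ)) ^ d := by ring

end Pool.Agent.Helper37.SU
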