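import Pool.Agent.Helper37.SU.Stmts

set_option autoImplicit false

namespace Pool.Agent.Helper37.SU

open MeasureTheory Finset
open scoped ENNReal Classical

namespace OVX52

theorem sum_net {b d m : ℕ} (x : Fin (b ^ m) → TT d) (hnet : IsNet b d m x)
    (hix : ∀ (j : ℕ) (t : UnitAddCircle), ix b j t < b ^ j)
    (τ : Fin d → ℕ) (hτ : ∑ i, τ i ≤ m) (e : Fin d → ℕ → ℝ) :
    ∑ p, ∏ i, e i (ix b (τ i) (x p i)) =
      (b : ℝ) ^ (m - ∑ i, τ i) * ∑ a ∈ gr b τ, ∏ i, e i (a i) := by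
  have h2 : ∑ a ∈ gr b τ, ∑ p ∈ univ.filter (fun p => (fun i => ix b (τ i) (x p i)) = a),
      ∏ i, e i (ix b (τ i) (x p i)) = ∑ p, ∏ i, e i (ix b (τ i) (x p i)) := by
    refine Finset.sum_fiberwise_of_maps_to (fun p _ => ?_) _
    exact mem_gr.2 fun i => hix _ _
  rw [← h2, Finset.mul_sum]
  refine Finset.sum_congr rfl fun a ha => ?_
  have h3 : ∑ p ∈ univ.filter (fun p => (fun i => ix b (τ i) (x p i)) = a),
      ∏ i, e i (ix b (τ i) (x p i))
      = ∑ p ∈ univ.filter (fun p => (fun i => ix b (τ i) (x p i)) = a), ∏ i, e i (a i) := by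
    refine Finset.sum_congr rfl fun p hp => ?_
    have h4 := (Finset.mem_filter.1 hp).2
    refine Finset.prod_congr rfl fun i _ => ?_
    have h5 : ix b (τ i) (x p i) = a i := congrFun h4 i
    rw [h5]
  rw [h3, Finset.sum_const, nsmul_eq_mul]
  have h6 : (univ.filter (fun p => (fun i => ix b (τ i) (x p i)) = a)).card
      = b ^ (m - ∑ i, τ i) := by
    rw [← hnet (τ, a) hτ (mem_gr.1 ha)]
    congr 1
    ext p
    simp only [Finset.mem_filter, Finset.mem_univ, true_and]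
    exact ⟨fun h i => congrFun h i, fun h => funext h⟩
  rw [h6]
  push_cast
  ring

theorem ev_comp {b : ℕ} (j : ℕ) (u v c : UnitAddCircle) (hb : 2 ≤ b)
    (h : ‖v - u‖ ≤ ((b : ℝ) ^ j)⁻¹) : ev b j (v - c) ≤ 4 * ev b j (u - c) := by
  have hbj : 0 < (b : ℝ) ^ j := by positivity
  have h1 : ‖u - c‖ ≤ ‖v - c‖ + ((b : ℝ) ^ j)⁻¹ := by
    have : u - c = (v - c) - (v - u) := by abel
    rw [this]
    exact (norm_sub_le _ _).trans (by linarith)
  have h2 : 1 + (b : ℝ) ^ j * ‖u - c‖ ≤ 2 * (1 + (b : ℝ) ^ j * ‖v - c‖) := by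
    have h3 : (b : ℝ) ^ j * ‖u - c‖ ≤ (b : ℝ) ^ j * ‖v - c‖ + 1 := by
      calc (b : ℝ) ^ j * ‖u - c‖ ≤ (b : ℝ) ^ j * (‖v - c‖ + ((b : ℝ) ^ j)⁻¹) :=
            mul_le_mul_of_nonneg_left h1 hbj.le
        _ = (b : ℝ) ^ j * ‖v - c‖ + 1 := by
            rw [mul_add, mul_inv_cancel₀ hbj.ne']
    have h4 : 0 ≤ (b : ℝ) ^ j * ‖v - c‖ := by positivity
    linarith
  unfold ev
  have hU : 0 < 1 + (b : ℝ) ^ j * ‖u - c‖ := by positivity
  have hV : 0 < 1 + (b : ℝ) ^ j * ‖v - c‖ := by positivity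
  have h5 : (1 + (b : ℝ) ^ j * ‖u - c‖) ^ 2 ≤ 4 * (1 + (b : ℝ) ^ j * ‖v - c‖) ^ 2 := by
    nlinarith
  rw [← div_eq_mul_inv, inv_eq_one_div, div_le_div_iff₀ (by positivity) (by positivity)]
  linarith

theorem ev_nonneg (b j : ℕ) (t : UnitAddCircle) : 0 ≤ ev b j t := by
  unfold ev
  positivity

theorem ev_mono {b i j : ℕ} (hb : 2 ≤ b) (h : i ≤ j) (t : UnitAddCircle) :
    ev b j t ≤ ev b i t := by
  have hb' : (2 : ℝ) ≤ b := by exact_mod_cast hb
  unfold ev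
  refine inv_anti₀ (by positivity) ?_
  have h1 : (b : ℝ) ^ i ≤ (b : ℝ) ^ j := pow_le_pow_right₀ (by linarith) h
  have h2 : (b : ℝ) ^ i * ‖t‖ ≤ (b : ℝ) ^ j * ‖t‖ :=
    mul_le_mul_of_nonneg_right h1 (norm_nonneg _)
  have h3 : 0 ≤ (b : ℝ) ^ i * ‖t‖ := by positivity
  nlinarith

theorem exists_sub {d m : ℕ} : ∀ (k : ℕ) (σ : Fin d → ℕ), ∑ i, σ i = m + k →
    ∃ σ' : Fin d → ℕ, (∀ i, σ' i ≤ σ i) ∧ ∑ i, σ' i = m := by
  intro k
  induction k with
  | zero => exact fun σ h => ⟨σ, fun _ => le_rfl, h⟩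
  | succ k ih =>
    intro σ h
    have h1 : ∃ i, 0 < σ i := by
      by_contra hne
      push Not at hne
      have : ∑ i, σ i = 0 := Finset.sum_eq_zero fun i _ => Nat.le_zero.1 (hne i)
      omega
    obtain ⟨i, hi⟩ := h1
    have h2 : ∑ j, Function.update σ i (σ i - 1) j = m + k := by
      have e1 := Finset.add_sum_erase univ σ (Finset.mem_univ i)
      have e2 := Finset.add_sum_erase univ (Function.update σ i (σ i - 1)) (Finset.mem_univ i)
      have e3 : ∑ j ∈ univ.erase i, Function.update σ i (σ i - 1) j = ∑ j ∈ univ.erase i, σ j := by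
        refine Finset.sum_congr rfl fun j hj => ?_
        rw [Function.update_of_ne (Finset.ne_of_mem_erase hj)]
      rw [Function.update_self, e3] at e2
      omega
    obtain ⟨σ', h3, h4⟩ := ih _ h2
    refine ⟨σ', fun j => (h3 j).trans ?_, h4⟩
    by_cases hj : j = i
    · subst hj
      rw [Function.update_self]
      omega
    · rw [Function.update_of_ne hj]

end OVX52

open OVX52

theorem st_OVX (hI : ST_IXB) (hE : ST_EVI) : ST_OVX := by
  intro b d hb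
  obtain ⟨i1, _, i3, _, _, _, _, _⟩ := hI b hb
  obtain ⟨C2, hC2, _, hE2⟩ := hE b d hb
  have hb' : (2 : ℝ) ≤ b := by exact_mod_cast hb
  have hb0 : (0 : ℝ) < b := by linarith
  have key : ∀ (m : ℕ) (x : Fin (b ^ m) → TT d) (σ : Fin d → ℕ) (c : TT d), IsNet b d m x →
      ∑ i, σ i ≤ m →
      ∑ p, ∏ i, ev b (σ i) (x p i - c i) ≤ 4 ^ d * C2 * (b : ℝ) ^ (m - ∑ i, σ i) := by
    intro m x σ c hnet hσ
    calc ∑ p, ∏ i, ev b (σ i) (x p i - c i)
        ≤ ∑ p, ∏ i, 4 * ev b (σ i) (pt b (σ i) (ix b (σ i) (x p i)) - c i) := by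
          refine Finset.sum_le_sum fun p _ => Finset.prod_le_prod (fun _ _ => ev_nonneg _ _ _)
            fun i _ => ?_
          exact ev_comp (σ i) _ _ _ hb (i3 (σ i) (x p i))
      _ = 4 ^ d * ∑ p, ∏ i, ev b (σ i) (pt b (σ i) (ix b (σ i) (x p i)) - c i) := by
          rw [Finset.mul_sum]
          refine Finset.sum_congr rfl fun p _ => ?_
          rw [Finset.prod_mul_distrib, Finset.prod_const, Finset.card_univ, Fintype.card_fin]
      _ = 4 ^ d * ((b : ℝ) ^ (m - ∑ i, σ i) * ∑ a ∈ gr b σ, EV b (σ, a) c) := by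
          rw [sum_net x hnet i1 σ hσ fun i a => ev b (σ i) (pt b (σ i) a - c i)]
          congr 2
          refine Finset.sum_congr rfl fun a _ => ?_
          unfold EV
          refine Finset.prod_congr rfl fun i _ => ?_
          unfold ev
          rw [norm_sub_rev]
      _ ≤ 4 ^ d * ((b : ℝ) ^ (m - ∑ i, σ i) * C2) := by
          refine mul_le_mul_of_nonneg_left ?_ (by positivity)
          exact mul_le_mul_of_nonneg_left (hE2 σ c) (by positivity)
      _ = 4 ^ d * C2 * (b : ℝ) ^ (m - ∑ i, σ i) := by ring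
  refine ⟨4 ^ d * C2, by positivity, fun m x σ c hnet => ?_⟩
  by_cases h : ∑ i, σ i ≤ m
  · refine (key m x σ c hnet h).trans ?_
    refine mul_le_mul_of_nonneg_left ?_ (by positivity)
    have h1 : (b : ℝ) ^ m / (b : ℝ) ^ (∑ i, σ i) = (b : ℝ) ^ (m - ∑ i, σ i) := by
      obtain ⟨r, hr⟩ : ∃ r, m = ∑ i, σ i + r := ⟨m - ∑ i, σ i, by omega⟩
      rw [hr, Nat.add_sub_cancel_left, pow_add]
      field_simp
    rw [h1]
    linarith
  · push Not at h
    obtain ⟨σ', h1, h2⟩ := exists_sub (m := m) (∑ i, σ i - m) σ (by omega)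
    have h3 := key m x σ' c hnet h2.le
    rw [h2, Nat.sub_self, pow_zero, mul_one] at h3
    have h4 : ∑ p, ∏ i, ev b (σ i) (x p i - c i) ≤ ∑ p, ∏ i, ev b (σ' i) (x p i - c i) :=
      Finset.sum_le_sum fun p _ => Finset.prod_le_prod (fun _ _ => ev_nonneg _ _ _)
        fun i _ => ev_mono hb (h1 i) _
    refine h4.trans (h3.trans ?_)
    have h5 : 0 ≤ (b : ℝ) ^ m / (b : ℝ) ^ (∑ i, σ i) := by positivity
    have h6 : 0 < 4 ^ d * C2 := by positivity
    nlinarith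

end Pool.Agent.Helper37.SU
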